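import Pool.Agent.Q196.FI.Mean

/-! # The averaged inequality for the test curves -/

set_option autoImplicit false

open Real Set MeasureTheory Metric Filter Topology
open scoped ENNReal

namespace Pool.Agent.Q196.FI

open Pool.Agent.Y499.HC Pool.Agent.Y499.HR Pool.Agent.Y502.HC Pool.Agent.Q196.FE
open Pool.Agent.Q196.FD Pool.Agent.Q196.FH

variable {d : ℕ} {G : Subgroup (O d)} [CompactSpace G] {R : ℝ} {b : ℝ → E d → ℝ} {m : Met d}
  {x w : E d}

theorem curve_avg (hb : Factor R b) (hNS : NonShort R (scale b m))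
    (hI : GInv G R m) (hcirc : Circ R m x w) (hal : Along G R b x w) (hx : ‖x‖ = 1)
    (hw : ‖w‖ = 1) (hin : inner ℝ x w = 0)
    (hqc : ContinuousOn (fun s => quad (m.g s x) w) (Ico 0 R))
    (hq : ∀ s ∈ Ico 0 R, 0 < quad (m.g s x) w) :
    CurveIneq R fun s => BG G b s x * √(quad (m.g s x) w) := by
  intro A hA v hv hvm hvu α hαA
  have hα : α ∈ Ioo 0 (π / 2) := ⟨hαA.1, hαA.2.trans (Real.arctan_lt_pi_div_two _)⟩
  set g : ℝ → ℝ := fun t => BG G b (clp A t) x * √(quad (m.g (clp A t) x) w) with hg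
  have hfc : ContinuousOn (fun s => BG G b s x * √(quad (m.g s x) w)) (Ico 0 R) :=
    (BG_cont_s hb hx).mul hqc.sqrt
  have hgc : Continuous g := hfc.comp_continuous (clp_cont A) (clp_mem_Ico hA)
  have hgp : ∀ t, 0 < g t := fun t => mul_pos (BG_pos hb (clp_mem_Ico hA t) hx)
    (Real.sqrt_pos.2 (hq _ (clp_mem_Ico hA t)))
  have hcv : Continuous (cv v α) := (contDiff_cv hgc hv hα).continuous
  have hCc : Continuous (C α) := Pool.Agent.Q196.FD.continuous_C α
  have hC := C_pos' hα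
  have hn := norm_pt (x := x) (w := w) hα hx hw hin
  have hqcc : Continuous fun τ => quad (m.g (clp A (cv v α τ)) x) w := by
    have h1 := hqc.comp_continuous ((clp_cont A).comp hcv) fun τ => clp_mem_Ico hA _
    exact h1
  refine avg_sqrt (hm G) (D := fun τ => g (cv v α τ) * (Real.sin α * Real.cos τ / C α τ ^ 2))
    (q := fun τ => (Real.cos α / C α τ ^ 2) ^ 2 * quad (m.g (clp A (cv v α τ)) x) w)
    (B := fun p : G × ℝ => b (clp A (cv v α p.2)) (actS (p.1 : O d) (ptS x w α hn p.2) : E d))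
    ?_ ?_ ?_ (b_cont hb hA hα hn hcv) ?_ ?_ ?_ ?_
  · exact (hgc.comp hcv).mul ((continuous_const.mul Real.continuous_cos).div (hCc.pow 2)
      fun τ => (pow_pos (hC τ) 2).ne')
  · exact ((continuous_const.div (hCc.pow 2) fun τ => (pow_pos (hC τ) 2).ne').pow 2).mul hqcc
  · exact fun τ => mul_nonneg (sq_nonneg _) (hq _ (clp_mem_Ico hA _)).le
  · exact (hgc.comp hcv).div hCc fun τ => (hC τ).ne'
  · exact fun τ => div_pos (hgp _) (hC τ)
  · intro τ _
    have hs := clp_mem_Ico hA (cv v α τ)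
    have h1 : ∫ γ : G, b (clp A (cv v α τ)) (actS (γ : O d) (ptS x w α hn τ) : E d) ^ 2 ∂(hm G) =
        BG G b (clp A (cv v α τ)) x ^ 2 := by
      rw [BG_sq hb hs hx]
      exact along_int hb hx hal hs (pq_one hα τ)
    simp only
    rw [h1]
    have h2 : g (cv v α τ) ^ 2 = BG G b (clp A (cv v α τ)) x ^ 2 *
        quad (m.g (clp A (cv v α τ)) x) w := by
      rw [hg]
      show (BG G b (clp A (cv v α τ)) x * √(quad (m.g (clp A (cv v α τ)) x) w)) ^ 2 = _
      rw [mul_pow, Real.sq_sqrt (hq _ hs).le]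
    have h3 : (Real.cos α / C α τ ^ 2) ^ 2 * quad (m.g (clp A (cv v α τ)) x) w *
        BG G b (clp A (cv v α τ)) x ^ 2 = (Real.cos α / C α τ ^ 2) ^ 2 * g (cv v α τ) ^ 2 := by
      rw [h2]
      ring
    rw [h3]
    exact speed_id (hC τ).ne' (C_sq' hα τ) (sin_sq_add_cos_sq α) (sin_sq_add_cos_sq τ)
  · intro γ
    have h1 := one_curve hNS hI hcirc hx hw hin hA hgc hv hvm hvu hαA γ.2
    refine h1.trans (le_of_eq ?_)
    refine intervalIntegral.integral_congr fun t ht => ?_
    rw [uIcc_of_le pi_pos.le] at ht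
    have hr := cv_range hvm hvu hαA ht
    simp only
    rw [clp_eq hr]
    rfl

/-- the case of equality, at the direction `w` of the circle -/
theorem rigid_w (hb : Factor R b) (hNS : NonShort R (scale b m))
    (hI : GInv G R m) (hR : R ≤ π / 2) (hcirc : Circ R m x w) (hal : Along G R b x w)
    (hx : ‖x‖ = 1) (hw : ‖w‖ = 1)
    (hin : inner ℝ x w = 0) (hqc : ContinuousOn (fun s => quad (m.g s x) w) (Ico 0 R))
    (hq : ∀ s ∈ Ico 0 R, 0 < quad (m.g s x) w)
    (hf : ∀ s ∈ Ico 0 R, BG G b s x * √(quad (m.g s x) w) = Real.cos s) {α : ℝ}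
    (hαR : α ∈ Ioo 0 R) : b α w ^ 2 * quad (m.g α x) w = Real.cos α ^ 2 := by
  have hα : α ∈ Ioo 0 (π / 2) := ⟨hαR.1, hαR.2.trans_le hR⟩
  have hA : α ∈ Ico 0 R := ⟨hαR.1.le, hαR.2⟩
  have hSc : Continuous (S α) := (Pool.Agent.Z932.HC.contDiff_S hα).continuous
  have hCc : Continuous (C α) := Pool.Agent.Q196.FD.continuous_C α
  have hC := C_pos' hα
  have hn := norm_pt (x := x) (w := w) hα hx hw hin
  have hqcc : Continuous fun τ => quad (m.g (clp α (S α τ)) x) w := by
    have h1 := hqc.comp_continuous ((clp_cont α).comp hSc) fun τ => clp_mem_Ico hA _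
    exact h1
  have hz0 := avg_eq (ν := hm G) (D := fun τ => Real.sin α * Real.cos τ / C α τ)
    (q := fun τ => (Real.cos α / C α τ ^ 2) ^ 2 * quad (m.g (clp α (S α τ)) x) w)
    (B := fun p : G × ℝ => b (clp α (S α p.2)) (actS (p.1 : O d) (ptS x w α hn p.2) : E d))
    ((continuous_const.mul Real.continuous_cos).div hCc fun τ => (hC τ).ne')
    (((continuous_const.div (hCc.pow 2) fun τ => (pow_pos (hC τ) 2).ne').pow 2).mul hqcc)
    (fun τ => mul_nonneg (sq_nonneg _) (hq _ (clp_mem_Ico hA _)).le)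
    (b_cont hb hA hα hn hSc) ?_ ?_ (τ := π / 2) ⟨by positivity, by linarith [pi_pos]⟩
  · have hS2 : clp α (S α (π / 2)) = α := by
      have h1 : S α (π / 2) = α := by
        unfold S
        rw [Real.sin_pi_div_two, mul_one, Real.arcsin_sin (by linarith [hα.1, pi_pos]) hα.2.le]
      rw [h1, clp_eq ⟨hα.1.le, le_rfl⟩]
    have hC2 : C α (π / 2) ^ 2 = Real.cos α ^ 2 := by
      rw [C_sq' hα, Real.sin_pi_div_two, mul_one]
      have := sin_sq_add_cos_sq α
      linarith
    have hca : 0 < Real.cos α := Real.cos_pos_of_mem_Ioo ⟨by linarith [hα.1, pi_pos], hα.2⟩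
    have hC3 : C α (π / 2) = Real.cos α := by
      have h1 := hC (π / 2)
      nlinarith [hC2]
    have hpt : pt x w α (π / 2) = w := by
      unfold pt
      rw [Real.cos_pi_div_two, Real.sin_pi_div_two, hC3, zero_div, zero_smul, zero_add, mul_one,
        div_self hca.ne', one_smul]
    simp only [hS2, Real.cos_pi_div_two, mul_zero, zero_div, hC2] at hz0
    set q₀ := (Real.cos α / Real.cos α ^ 2) ^ 2 * quad (m.g α x) w with hq₀
    have hq₀0 : 0 < q₀ := mul_pos (pow_pos (div_pos hca (pow_pos hca 2)) 2) (hq α hA)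
    set F : G → ℝ := fun γ => (√(0 ^ 2 + b α (act (γ : O d) w) ^ 2 * q₀) - 1) ^ 2 with hF
    have hFc : Continuous F := by
      have h1 := orb_cont (G := G) hb hA hw
      exact (((continuous_const.add ((h1.pow 2).mul continuous_const)).sqrt).sub
        continuous_const).pow 2
    have h2 : ∫ γ : G, F γ ∂(hm G) = 0 := by
      rw [← hz0]
      refine integral_congr_ae (Eventually.of_forall fun γ => ?_)
      show (√(0 ^ 2 + b α (act (γ : O d) w) ^ 2 * q₀) - 1) ^ 2 =
        (√(0 ^ 2 + b α (act (γ : O d) (pt x w α (π / 2))) ^ 2 * q₀) - 1) ^ 2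
      rw [hpt]
    have h3 : F 1 = 0 := by
      by_contra hne
      have h4 := hFc.integral_pos_of_hasCompactSupport_nonneg_nonzero (μ := hm G)
        (HasCompactSupport.of_compactSpace _) (fun y => sq_nonneg _) hne
      rw [h2] at h4
      exact lt_irrefl _ h4
    have h4 : √(0 ^ 2 + b α w ^ 2 * q₀) - 1 = 0 := by
      have h5 : (√(0 ^ 2 + b α (act (1 : O d) w) ^ 2 * q₀) - 1) ^ 2 = 0 := h3
      rw [act_one] at h5
      exact pow_eq_zero_iff (two_ne_zero) |>.1 h5
    have h5 : √(0 ^ 2 + b α w ^ 2 * q₀) = 1 := by linarith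
    have h6 : 0 ^ 2 + b α w ^ 2 * q₀ = 1 := by
      have h7 := Real.sq_sqrt (show 0 ≤ 0 ^ 2 + b α w ^ 2 * q₀ by positivity)
      rw [h5] at h7
      linarith
    rw [hq₀] at h6
    field_simp at h6
    linarith
  · intro γ
    have h1 := round_curve hNS hI hcirc hx hw hin hα hαR.2 γ.2
    refine h1.trans (le_of_eq ?_)
    refine intervalIntegral.integral_congr fun t ht => ?_
    rw [uIcc_of_le pi_pos.le] at ht
    have hr := S_mem hα ht
    simp only
    rw [clp_eq hr]
    rfl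
  · intro τ hτ
    have hr := S_mem hα hτ
    have hs : S α τ ∈ Ico 0 R := ⟨hr.1, hr.2.trans_lt hαR.2⟩
    have h1 : ∫ γ : G, b (S α τ) (actS (γ : O d) (ptS x w α hn τ) : E d) ^ 2 ∂(hm G) =
        BG G b (S α τ) x ^ 2 := by
      rw [BG_sq hb hs hx]
      exact along_int hb hx hal hs (pq_one hα τ)
    simp only
    rw [clp_eq hr, h1]
    have h2 : C α τ ^ 2 = quad (m.g (S α τ) x) w * BG G b (S α τ) x ^ 2 := by
      rw [← cos_S' hα, ← hf _ hs, mul_pow, Real.sq_sqrt (hq _ hs).le, mul_comm]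
    have h3 := speed_id' (hC τ).ne' (C_sq' hα τ) (sin_sq_add_cos_sq α) (sin_sq_add_cos_sq τ)
    rw [← h3]
    congr 1
    rw [mul_assoc, ← h2]

end Pool.Agent.Q196.FI
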