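import Pool.Agent.Q196.FI.Vol

/-! # The case of equality and collars of all widths -/

set_option autoImplicit false

open Real Set MeasureTheory Metric Filter Topology
open scoped ENNReal

namespace Pool.Agent.Q196.FI

open Pool.Agent.Y499.HC Pool.Agent.Y499.HR Pool.Agent.Y502.HC Pool.Agent.Q196.FE
open Pool.Agent.Q196.FD Pool.Agent.Q196.FH

variable {d : ℕ} {G : Subgroup (O d)} {R : ℝ} {b : ℝ → E d → ℝ} {m : Met d} {x w : E d}

lemma quad_shift (h : Circ R m x w) {s : ℝ} (hs : s ∈ Ico 0 R) :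
    quad (m.g s (-w)) x = quad (m.g s x) w := by
  have h1 := h s hs 0 (-1) (by norm_num)
  have e1 : (0 : ℝ) • x + (-1 : ℝ) • w = -w := by module
  have e2 : (0 : ℝ) • w - (-1 : ℝ) • x = x := by module
  rwa [e1, e2] at h1

lemma circ_shift (h : Circ R m x w) : Circ R m (-w) x := by
  intro s hs p q hpq
  rw [quad_shift h hs]
  have h1 := h s hs q (-p) (by rw [← hpq]; ring)
  have e1 : p • (-w) + q • x = q • x + (-p) • w := by module
  have e2 : p • x - q • (-w) = q • w - (-p) • x := by module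
  rw [e1, e2]
  exact h1

lemma along_shift (h : Along G R b x w) : Along G R b (-w) x := by
  intro s hs p q hpq
  obtain ⟨κ₁, hκ₁, h1⟩ := h s hs q (-p) (by rw [← hpq]; ring)
  obtain ⟨κ₂, hκ₂, h2⟩ := h s hs 0 (-1) (by norm_num)
  refine ⟨κ₁ * κ₂⁻¹, G.mul_mem hκ₁ (G.inv_mem hκ₂), fun γ hγ => ?_⟩
  have e1 : p • (-w) + q • x = q • x + (-p) • w := by module
  have e2 : (0 : ℝ) • x + (-1 : ℝ) • w = -w := by module
  rw [e1, h1 γ hγ]
  have h3 := h2 (γ * (κ₁ * κ₂⁻¹)) (G.mul_mem hγ (G.mul_mem hκ₁ (G.inv_mem hκ₂)))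
  rw [e2] at h3
  have h4 : act (γ * (κ₁ * κ₂⁻¹)) (act κ₂ x) = act γ (act κ₁ x) := by
    rw [← act_mul, ← act_mul]
    congr 2
    group
  rw [← act_mul γ (κ₁ * κ₂⁻¹), h3, h4]

variable [CompactSpace G]

lemma BG_shift (hb : Factor R b) (hx : ‖x‖ = 1) (h : Along G R b x w) {s : ℝ}
    (hs : s ∈ Ico 0 R) : BG G b s (-w) = BG G b s x := by
  have h1 := along_int hb hx h hs (p := 0) (q := -1) (by norm_num)
  have e2 : (0 : ℝ) • x + (-1 : ℝ) • w = -w := by module
  rw [e2] at h1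
  unfold BG
  rw [h1]

variable {ι : Type} [Fintype ι] {f : ι → E d}

lemma point_rigid (hR0 : 0 < R) (hR : R ≤ π / 2) (hgood : Good R m) (hP : PosDef R m)
    (hI : GInv G R m) (hb : Factor R b) (hNS : NonShort R (scale b m)) (hx : ‖x‖ = 1)
    (h : Frame R m x f) (hal : ∀ i, Along G R b x (f i))
    (heq : ∫⁻ s in Ioo 0 R, ENNReal.ofReal (P m s x * BG G b s x ^ d) ≤
      ENNReal.ofReal (∫ θ in (0 : ℝ)..R, Real.cos θ ^ d)) {s : ℝ} (hs : s ∈ Ico 0 R) {v : E d}
    (hv : inner ℝ x v = 0) : b s x ^ 2 * quad (m.g s x) v = Real.cos s ^ 2 * ‖v‖ ^ 2 := by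
  have hD := dirs_pt hgood hP hI hb hNS hx h hal
  have heq' : ∫⁻ s in Ioo 0 R, ENNReal.ofReal (∏ i, (BG G b s x * √(quad (m.g s x) (f i)))) ≤
      ENNReal.ofReal (∫ θ in (0 : ℝ)..R, Real.cos θ ^ d) := by
    refine le_trans (le_of_eq ?_) heq
    refine setLIntegral_congr_fun measurableSet_Ioo fun s hs => ?_
    rw [prod_pt hgood hP hx h ⟨hs.1.le, hs.2⟩]
  have hf : ∀ i, ∀ s ∈ Ico 0 R, BG G b s x * √(quad (m.g s x) (f i)) = Real.cos s :=
    fun i s hs => one_dim_eq hR0 hR hD heq' i hs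
  have hpt : ∀ i, ∀ s ∈ Ico 0 R, b s x ^ 2 * quad (m.g s x) (f i) = Real.cos s ^ 2 := by
    intro i s hs
    have hw : ‖-f i‖ = 1 := by rw [norm_neg]; exact h.orthn.norm_eq_one i
    have hin' : inner ℝ (-f i) x = 0 := by
      rw [inner_neg_left, real_inner_comm, h.perp i, neg_zero]
    have hx0 : x ≠ 0 := fun h0 => by
      rw [h0, norm_zero] at hx
      exact zero_ne_one hx
    have hin : ∀ s ∈ Ioo 0 R, b s x ^ 2 * quad (m.g s x) (f i) = Real.cos s ^ 2 := by
      intro s hs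
      have h1 := rigid_w hb hNS hI hR (circ_shift (h.circ i)) (along_shift (hal i)) hw hx hin'
        (quad_cont hgood hw x) (fun s hs => hP s hs _ hw x hin' hx0)
        (fun s hs => by rw [BG_shift hb hx (hal i) hs, quad_shift (h.circ i) hs]; exact hf i s hs)
        hs
      rwa [quad_shift (h.circ i) ⟨hs.1.le, hs.2⟩] at h1
    rcases hs.1.eq_or_lt with h0 | h0
    · have hc : ContinuousOn (fun s => b s x ^ 2 * quad (m.g s x) (f i)) (Ico 0 R) :=
        ((b_s_cont hb hx).pow 2).mul (quad_cont hgood hx (f i))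
      have h3 : Tendsto (fun s => b s x ^ 2 * quad (m.g s x) (f i)) (𝓝[Ioo 0 R] 0)
          (𝓝 (b 0 x ^ 2 * quad (m.g 0 x) (f i))) :=
        (hc 0 ⟨le_rfl, hR0⟩).mono_left (nhdsWithin_mono _ Ioo_subset_Ico_self)
      have h4 : Tendsto (fun s => Real.cos s ^ 2) (𝓝[Ioo 0 R] 0) (𝓝 (Real.cos 0 ^ 2)) :=
        (Real.continuous_cos.pow 2).continuousWithinAt
      haveI : (𝓝[Ioo 0 R] (0 : ℝ)).NeBot := by
        rw [nhdsWithin_Ioo_eq_nhdsGT hR0]
        infer_instance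
      have h5 := tendsto_nhds_unique_of_eventuallyEq h3 h4
        (by filter_upwards [self_mem_nhdsWithin] with t ht using hin t ht)
      rw [← h0]
      exact h5
    · exact hin s ⟨h0, hs.2⟩
  obtain ⟨ob, ho, hob⟩ := exists_ob hx h.card h.perp h.orthn
  have h3 := ob.sum_repr' v
  rw [Fintype.sum_option, ho, hv, zero_smul, zero_add] at h3
  simp only [hob] at h3
  have h4 := ob.sum_sq_norm_inner_right v
  rw [Fintype.sum_option, ho, hv, norm_zero] at h4
  simp only [hob, Real.norm_eq_abs, sq_abs] at h4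
  have h5 := h.diag s hs fun i => inner ℝ (f i) v
  rw [h3] at h5
  rw [h5, ← h4, Finset.mul_sum]
  have h6 : ∀ i, b s x ^ 2 * (inner ℝ (f i) v ^ 2 * quad (m.g s x) (f i)) =
      inner ℝ (f i) v ^ 2 * Real.cos s ^ 2 := fun i => by
    rw [← hpt i s hs]
    ring
  simp only [h6]
  rw [← Finset.sum_mul]
  ring

theorem volume_rigid (hR0 : 0 < R) (hR : R ≤ π / 2) (hgood : Good R m) (hP : PosDef R m)
    (hI : GInv G R m) (hb : Factor R b) (hNS : NonShort R (scale b m)) (hd : 2 ≤ d)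
    (hfr : ∀ x : E d, ‖x‖ = 1 → ∃ w : Fin d → E d, Frame R m x w ∧ ∀ i, Along G R b x (w i))
    (heq : vol R (scale b m) = hemiCollar d R) : IsRound R (scale b m) := by
  have hfin : ∫⁻ _ : Sph d, ENNReal.ofReal (∫ θ in (0 : ℝ)..R, Real.cos θ ^ d) ∂(σ d) ≠ ⊤ := by
    rw [lintegral_const]
    exact ENNReal.mul_ne_top ENNReal.ofReal_ne_top (measure_ne_top _ _)
  have h0 := vol_ge (G := G) hgood hP hI hb hd fun x hx => by
    obtain ⟨w, hw, -⟩ := hfr x hx
    exact ⟨w, hw⟩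
  rw [heq, hemi_eq] at h0
  have hmeas : AEMeasurable (fun x : Sph d =>
      ∫⁻ s in Ioo 0 R, ENNReal.ofReal (P m s x * BG G b s x ^ d)) (σ d) :=
    (dens_meas' hgood hb).prod_swap.lintegral_prod_right'
  have h1 := ae_eq_of_ae_le_of_lintegral_le (μ := σ d)
    (f := fun _ : Sph d => ENNReal.ofReal (∫ θ in (0 : ℝ)..R, Real.cos θ ^ d))
    (g := fun x : Sph d => ∫⁻ s in Ioo 0 R, ENNReal.ofReal (P m s x * BG G b s x ^ d))
    (Eventually.of_forall fun x => by
      have hx : ‖(x : E d)‖ = 1 := mem_sphere_zero_iff_norm.1 x.2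
      obtain ⟨w, hw, hal⟩ := hfr x hx
      exact point_ge hR0 hR hgood hP hI hb hNS hx hw hal) hfin hmeas h0
  have h2 : ∀ s ∈ Ico 0 R, ∀ x : Sph d, ∀ v : E d, inner ℝ (x : E d) v = 0 →
      b s x ^ 2 * quad (m.g s x) v = Real.cos s ^ 2 * ‖v‖ ^ 2 := by
    intro s hs x v hv
    have h3 : (fun y : Sph d => b s (y : E d) ^ 2 *
        quad (m.g s y) (v - (inner ℝ (y : E d) v : ℝ) • (y : E d))) =ᵐ[σ d] fun y : Sph d =>
          Real.cos s ^ 2 * ‖v - (inner ℝ (y : E d) v : ℝ) • (y : E d)‖ ^ 2 := by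
      filter_upwards [h1] with y hy
      have hy1 : ‖(y : E d)‖ = 1 := mem_sphere_zero_iff_norm.1 y.2
      obtain ⟨w, hw, hal⟩ := hfr y hy1
      refine point_rigid hR0 hR hgood hP hI hb hNS hy1 hw hal hy.ge hs ?_
      rw [inner_sub_right, inner_smul_right, real_inner_self_eq_norm_sq, hy1]
      ring
    have hc1 : Continuous fun y : Sph d => b s (y : E d) ^ 2 *
        quad (m.g s y) (v - (inner ℝ (y : E d) v : ℝ) • (y : E d)) :=
      ((hb.cont1 hs).pow 2).mul (proj_cont hgood hs v)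
    have hc2 : Continuous fun y : Sph d =>
        Real.cos s ^ 2 * ‖v - (inner ℝ (y : E d) v : ℝ) • (y : E d)‖ ^ 2 := by
      fun_prop
    have h4 := (hc1.ae_eq_iff_eq (σ d) hc2).1 h3
    have h5 := congrFun h4 x
    simp only [hv, zero_smul, sub_zero] at h5
    exact h5
  intro s hs x hx p v hv
  rw [scale_sq, h2 s hs ⟨x, hx⟩ v hv]

omit [CompactSpace G] in
/-- collars of all widths -/
theorem main (hR0 : 0 < R) (hG : IsClosed (G : Set (O d))) (hgood : Good R m) (hP : PosDef R m)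
    (hI : GInv G R m) (hb : Factor R b) (hNS : NonShort R (scale b m)) (hd : 2 ≤ d)
    (hfr : ∀ x : E d, ‖x‖ = 1 → ∃ w : Fin d → E d, Frame R m x w ∧ ∀ i, Along G R b x (w i)) :
    hemiCollar d (min R (π / 2)) ≤ vol R (scale b m) ∧
      (R ≤ π / 2 → vol R (scale b m) = hemiCollar d R → IsRound R (scale b m)) := by
  haveI : CompactSpace G := isCompact_iff_compactSpace.mp hG.isCompact
  refine ⟨?_, fun hR heq => volume_rigid hR0 hR hgood hP hI hb hNS hd hfr heq⟩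
  have h0 : min R (π / 2) ≤ R := min_le_left _ _
  have h1 : Ico 0 (min R (π / 2)) ⊆ Ico 0 R := Ico_subset_Ico_right h0
  have hb' : Factor (min R (π / 2)) b :=
    ⟨hb.cont.mono (prod_mono h1 le_rfl), fun s hs => hb.pos s (h1 hs)⟩
  refine (volume_ge (G := G) (lt_min hR0 (by positivity)) (min_le_right _ _) (good_mono h0 hgood)
    (fun s hs => hP s (h1 hs)) (fun γ hγ s hs => hI γ hγ s (h1 hs)) hb'
    (fun l s y hl hs hy h2 h3 h4 h5 h6 => hNS l s y hl hs hy (fun t ht => h1 (h2 t ht)) h3 h4 h5 h6)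
    hd fun x hx => ?_).trans (lintegral_mono_set (Ioo_subset_Ioo_right h0))
  obtain ⟨w, hw, hal⟩ := hfr x hx
  exact ⟨w, hw.mono h0, fun i s hs => hal i s (h1 hs)⟩

omit [CompactSpace G] in
/-- for a transitive group a frame at one point suffices -/
lemma transfer (hG : Trans G) (hI : GInv G R m) (hx : ‖x‖ = 1) {w : Fin d → E d}
    (h : Frame R m x w) (y : E d) (hy : ‖y‖ = 1) :
    ∃ w : Fin d → E d, Frame R m y w ∧ ∀ i, Along G R b y (w i) := by
  obtain ⟨γ, hγ, hγx⟩ := hG.trans x y hx hy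
  have hf := frame_act hI hx h hγ
  rw [hγx] at hf
  refine ⟨_, hf, fun i s _ p q hpq => ?_⟩
  have hn : ‖p • y + q • act γ (w i)‖ = 1 := by
    have hxw := hf.perp i
    have hw := hf.orthn.norm_eq_one i
    have h1 : ‖p • y + q • act γ (w i)‖ ^ 2 = 1 ^ 2 := by
      rw [norm_add_sq_real, inner_smul_left, inner_smul_right, hxw, norm_smul, norm_smul, hy, hw,
        mul_pow, mul_pow, Real.norm_eq_abs, Real.norm_eq_abs, sq_abs, sq_abs]
      simp only [mul_zero, add_zero, one_pow, mul_one]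
      exact hpq
    exact (sq_eq_sq₀ (norm_nonneg _) zero_le_one).1 h1
  obtain ⟨κ, hκ, h2⟩ := hG.trans y _ hy hn
  exact ⟨κ, hκ, fun δ _ => by rw [h2]⟩

end Pool.Agent.Q196.FI
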