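import Pool.Agent.Q196.FI.Fin

/-! # Groups of linear isometries instead of groups of matrices -/

set_option autoImplicit false

open Real Set MeasureTheory Metric Filter Topology
open scoped ENNReal

namespace Pool.Agent.Q196.FI

open Pool.Agent.Y499.HC Pool.Agent.Y499.HR Pool.Agent.Y502.HC Pool.Agent.Q196.FE
open Pool.Agent.Q196.FD Pool.Agent.Q196.FH

variable {d : ℕ}

/-- the isometries of the orthogonal matrices -/
noncomputable def actHom (d : ℕ) : O d →* (E d ≃ₗᵢ[ℝ] E d) where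
  toFun := act
  map_one' := LinearIsometryEquiv.ext act_one
  map_mul' := fun g h => LinearIsometryEquiv.ext (act_mul g h)

lemma act_surj (T : E d ≃ₗᵢ[ℝ] E d) : ∃ γ : O d, act γ = T := by
  obtain ⟨γ, hγ⟩ := mat_of_isom T.toLinearIsometry
  exact ⟨γ, LinearIsometryEquiv.ext hγ⟩

lemma closed_comap {G : Subgroup (E d ≃ₗᵢ[ℝ] E d)} (hG : ClosedG G) :
    IsClosed ((G.comap (actHom d) : Subgroup (O d)) : Set (O d)) := by
  have h1 : Continuous fun γ : O d => (fun x : E d => act γ x) :=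
    continuous_pi fun x => act_cont x
  have h2 := hG.preimage h1
  have h3 : ((G.comap (actHom d) : Subgroup (O d)) : Set (O d)) =
      (fun γ : O d => (fun x : E d => act γ x)) ⁻¹' {f : E d → E d | ∃ γ ∈ G, ∀ x, f x = γ x} := by
    ext γ
    constructor
    · intro h
      exact ⟨act γ, h, fun _ => rfl⟩
    · rintro ⟨δ, hδ, h⟩
      have : act γ = δ := LinearIsometryEquiv.ext h
      show act γ ∈ G
      rw [this]
      exact hδ
  rw [h3]
  exact h2

variable {G : Subgroup (E d ≃ₗᵢ[ℝ] E d)} {R : ℝ} {b : ℝ → E d → ℝ} {m : Met d}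

theorem final (hR0 : 0 < R) (hG : ClosedG G) (hgood : Good R m) (hP : PosDef R m)
    (hI : InvG G R m) (hb : Factor R b) (hNS : NonShort R (scale b m)) (hd : 2 ≤ d)
    (hfr : ∀ x : E d, ‖x‖ = 1 → ∃ w : Fin d → E d, Frame R m x w ∧ ∀ i, SameG G R b x (w i)) :
    hemiCollar d (min R (π / 2)) ≤ vol R (scale b m) ∧
      (R ≤ π / 2 → vol R (scale b m) = hemiCollar d R → IsRound R (scale b m)) := by
  refine main hR0 (closed_comap hG) hgood hP (fun γ hγ => hI (act γ) hγ) hb hNS hd fun x hx => ?_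
  obtain ⟨w, hw, hal⟩ := hfr x hx
  refine ⟨w, hw, fun i s hs p q hpq => ?_⟩
  obtain ⟨κ, hκ, h⟩ := hal i s hs p q hpq
  obtain ⟨κ', hκ'⟩ := act_surj κ
  refine ⟨κ', ?_, fun γ hγ => ?_⟩
  · show act κ' ∈ G
    rw [hκ']
    exact hκ
  · rw [hκ']
    exact h (act γ) hγ

theorem final_unitary {J : E d →ₗ[ℝ] E d} (hR0 : 0 < R) (hgood : Good R m) (hP : PosDef R m)
    (hJ : Cpx J) (hU : UInv J R m) (hb : Factor R b) (hNS : NonShort R (scale b m)) (hd : 2 ≤ d) :
    hemiCollar d (min R (π / 2)) ≤ vol R (scale b m) ∧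
      (R ≤ π / 2 → vol R (scale b m) = hemiCollar d R → IsRound R (scale b m)) := by
  obtain ⟨x, hx⟩ := exists_pt d
  obtain ⟨w, hw⟩ := unitary_frame hJ hU hx
  exact main hR0 (UGrp_trans hJ).closed hgood hP (UGrp_inv hU) hb hNS hd
    fun y hy => transfer (UGrp_trans hJ) (UGrp_inv hU) hx hw y hy

end Pool.Agent.Q196.FI
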