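import Pool.Agent.Q196.FH.Uni

/-! # The mean of the conformal factor over the orbits of a closed group -/

set_option autoImplicit false

open Real Set MeasureTheory Metric Filter Topology
open scoped ENNReal

namespace Pool.Agent.Q196.FI

open Pool.Agent.Y499.HC Pool.Agent.Y499.HR Pool.Agent.Y502.HC Pool.Agent.Q196.FE
open Pool.Agent.Q196.FH

variable {d : ℕ}

/-- the Haar probability measure -/
noncomputable def hm (G : Subgroup (O d)) [CompactSpace G] : Measure G :=
  Measure.haarMeasure (⊤ : TopologicalSpace.PositiveCompacts G)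

instance hm_haar (G : Subgroup (O d)) [CompactSpace G] : (hm G).IsHaarMeasure := by
  unfold hm
  infer_instance

instance hm_prob (G : Subgroup (O d)) [CompactSpace G] : IsProbabilityMeasure (hm G) := by
  constructor
  have h := Measure.haarMeasure_self (G := G) (K₀ := ⊤)
  simpa [hm] using h

instance sct_O : SecondCountableTopology (O d) := by
  haveI : SecondCountableTopology (Matrix (Fin (d + 1)) (Fin (d + 1)) ℝ) :=
    inferInstanceAs (SecondCountableTopology (Fin (d + 1) → Fin (d + 1) → ℝ))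
  exact TopologicalSpace.Subtype.secondCountableTopology _

instance sct_G (G : Subgroup (O d)) : SecondCountableTopology G :=
  TopologicalSpace.Subtype.secondCountableTopology _

/-- along the great circle through `x` with the direction `w` the factor looks the same on the
orbits of the group -/
def Along (G : Subgroup (O d)) (R : ℝ) (b : ℝ → E d → ℝ) (x w : E d) : Prop :=
  ∀ s ∈ Ico 0 R, ∀ p q : ℝ, p ^ 2 + q ^ 2 = 1 → ∃ κ ∈ G, ∀ γ ∈ G,
    b s (act γ (p • x + q • w)) = b s (act γ (act κ x))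

variable {G : Subgroup (O d)} [CompactSpace G] {R : ℝ} {b : ℝ → E d → ℝ}

lemma norm_act (γ : O d) (x : E d) : ‖act γ x‖ = ‖x‖ := (act γ).norm_map x

/-- the quadratic mean of `b s` over the orbit of `x` -/
noncomputable def BG (G : Subgroup (O d)) [CompactSpace G] (b : ℝ → E d → ℝ) (s : ℝ) (x : E d) :
    ℝ :=
  √(∫ γ : G, b s (act (γ : O d) x) ^ 2 ∂(hm G))

lemma orb_cont2 (hb : Factor R b) {A : ℝ} (hA : A ∈ Ico 0 R) :
    Continuous fun p : (ℝ × Sph d) × G => b (clp A p.1.1) (act (p.2 : O d) (p.1.2 : E d)) := by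
  have h1 : Continuous fun p : (ℝ × Sph d) × G => ((p.2 : O d), p.1.2) :=
    (continuous_subtype_val.comp continuous_snd).prodMk (continuous_snd.comp continuous_fst)
  have h2 := continuous_actS.comp h1
  have h3 : Continuous fun p : (ℝ × Sph d) × G => (p.1.1, actS (p.2 : O d) p.1.2) :=
    (continuous_fst.comp continuous_fst).prodMk h2
  exact (hb.cont2 hA).comp h3

lemma orb_cont (hb : Factor R b) {s : ℝ} (hs : s ∈ Ico 0 R) {x : E d} (hx : ‖x‖ = 1) :
    Continuous fun γ : G => b s (act (γ : O d) x) := by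
  have h1 : Continuous fun γ : G => (((s, (⟨x, mem_sphere_zero_iff_norm.2 hx⟩ : Sph d)), γ) :
      (ℝ × Sph d) × G) := continuous_const.prodMk continuous_id
  have h2 := (orb_cont2 (G := G) hb hs).comp h1
  have h3 : clp s s = s := clp_eq ⟨hs.1, le_rfl⟩
  simpa only [Function.comp_def, h3] using h2

lemma orb_int (hb : Factor R b) {s : ℝ} (hs : s ∈ Ico 0 R) {x : E d} (hx : ‖x‖ = 1) (k : ℕ) :
    Integrable (fun γ : G => b s (act (γ : O d) x) ^ k) (hm G) :=
  ((orb_cont hb hs hx).pow k).integrable_of_hasCompactSupport (HasCompactSupport.of_compactSpace _)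

lemma orb_pos (hb : Factor R b) {s : ℝ} (hs : s ∈ Ico 0 R) {x : E d} (hx : ‖x‖ = 1) :
    0 < ∫ γ : G, b s (act (γ : O d) x) ^ 2 ∂(hm G) := by
  refine ((orb_cont hb hs hx).pow 2).integral_pos_of_hasCompactSupport_nonneg_nonzero
    (HasCompactSupport.of_compactSpace _) (fun y => sq_nonneg _) (x := 1) ?_
  exact (pow_pos (hb.pos s hs _ (by rw [norm_act]; exact hx)) 2).ne'

lemma BG_sq (hb : Factor R b) {s : ℝ} (hs : s ∈ Ico 0 R) {x : E d} (hx : ‖x‖ = 1) :
    BG G b s x ^ 2 = ∫ γ : G, b s (act (γ : O d) x) ^ 2 ∂(hm G) :=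
  Real.sq_sqrt (orb_pos hb hs hx).le

lemma BG_pos (hb : Factor R b) {s : ℝ} (hs : s ∈ Ico 0 R) {x : E d} (hx : ‖x‖ = 1) :
    0 < BG G b s x := Real.sqrt_pos.2 (orb_pos hb hs hx)

lemma BG_cont2 (hb : Factor R b) {A : ℝ} (hA : A ∈ Ico 0 R) :
    Continuous fun p : ℝ × Sph d => BG G b (clp A p.1) (p.2 : E d) := by
  have h1 : Continuous (Function.uncurry fun (p : ℝ × Sph d) (γ : G) =>
      b (clp A p.1) (act (γ : O d) (p.2 : E d)) ^ 2) := (orb_cont2 hb hA).pow 2
  have h2 := continuous_parametric_integral_of_continuous (μ := hm G) h1 isCompact_univ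
  simp only [Measure.restrict_univ] at h2
  exact h2.sqrt

lemma BG_contOn (hb : Factor R b) :
    ContinuousOn (fun p : ℝ × Sph d => BG G b p.1 (p.2 : E d)) (Ico 0 R ×ˢ univ) := by
  rintro ⟨s, x⟩ ⟨hs, -⟩
  obtain ⟨A, hA1, hA2⟩ := exists_between hs.2
  have h1 := (BG_cont2 (G := G) hb ⟨hs.1.trans hA1.le, hA2⟩).continuousWithinAt
    (s := Ico 0 R ×ˢ univ) (x := (s, x))
  have h3 : ∀ᶠ p in 𝓝[Ico 0 R ×ˢ univ] (s, x), p.1 < A :=
    mem_nhdsWithin_of_mem_nhds (continuous_fst.continuousAt.preimage_mem_nhds (Iio_mem_nhds hA1))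
  have h2 : ∀ᶠ p in 𝓝[Ico 0 R ×ˢ univ] (s, x),
      BG G b p.1 (p.2 : E d) = BG G b (clp A p.1) (p.2 : E d) := by
    filter_upwards [h3, self_mem_nhdsWithin] with p hp1 hp2
    rw [clp_eq ⟨hp2.1.1, hp1.le⟩]
  refine h1.congr_of_eventuallyEq h2 ?_
  simp only
  rw [clp_eq ⟨hs.1, hA1.le⟩]

lemma BG_cont_s (hb : Factor R b) {x : E d} (hx : ‖x‖ = 1) :
    ContinuousOn (fun s => BG G b s x) (Ico 0 R) :=
  (BG_contOn (G := G) hb).comp
    (f := fun s : ℝ => (s, (⟨x, mem_sphere_zero_iff_norm.2 hx⟩ : Sph d)))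
    (continuous_id.prodMk continuous_const).continuousOn fun _ hs => ⟨hs, mem_univ _⟩

lemma BG_cont_x (hb : Factor R b) {s : ℝ} (hs : s ∈ Ico 0 R) :
    Continuous fun x : Sph d => BG G b s (x : E d) := by
  have h := (BG_cont2 (G := G) hb hs).comp (f := fun x : Sph d => (s, x))
    (continuous_const.prodMk continuous_id)
  have h3 : clp s s = s := clp_eq ⟨hs.1, le_rfl⟩
  simpa only [Function.comp_def, h3] using h

/-- right invariance -/
lemma int_right {F : G → ℝ} (hF : Continuous F) (κ : G) :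
    ∫ γ, F (γ * κ) ∂(hm G) = ∫ γ, F γ ∂(hm G) := integral_right' κ hF

lemma along_int (hb : Factor R b) {x w : E d} (hx : ‖x‖ = 1) (h : Along G R b x w)
    {s : ℝ} (hs : s ∈ Ico 0 R) {p q : ℝ} (hpq : p ^ 2 + q ^ 2 = 1) :
    ∫ γ : G, b s (act (γ : O d) (p • x + q • w)) ^ 2 ∂(hm G) =
      ∫ γ : G, b s (act (γ : O d) x) ^ 2 ∂(hm G) := by
  obtain ⟨κ, hκ, h1⟩ := h s hs p q hpq
  have hF : Continuous fun γ : G => b s (act (γ : O d) x) ^ 2 := (orb_cont hb hs hx).pow 2
  rw [← int_right hF ⟨κ, hκ⟩]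
  refine integral_congr_ae (Eventually.of_forall fun γ => ?_)
  simp only
  rw [h1 γ γ.2, ← act_mul]
  rfl

/-- Jensen's inequality on the orbits -/
lemma BG_pow (hb : Factor R b) (hd : 2 ≤ d) {s : ℝ} (hs : s ∈ Ico 0 R) {x : E d}
    (hx : ‖x‖ = 1) : BG G b s x ^ d ≤ ∫ γ : G, b s (act (γ : O d) x) ^ d ∂(hm G) := by
  have ht := BG_pos (G := G) hb hs hx
  set T := BG G b s x with hT
  have hsub : Integrable (fun γ : G => b s (act (γ : O d) x) ^ 2 - T ^ 2) (hm G) :=
    (orb_int hb hs hx 2).sub (integrable_const _)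
  have h1 : ∫ γ : G, (T ^ d + (d / 2) * (T ^ d / T ^ 2) *
      (b s (act (γ : O d) x) ^ 2 - T ^ 2)) ∂(hm G) ≤
      ∫ γ : G, b s (act (γ : O d) x) ^ d ∂(hm G) := by
    refine integral_mono ((integrable_const _).add (hsub.const_mul _)) (orb_int hb hs hx d)
      fun γ => ?_
    exact tangent (hb.pos s hs _ (by rw [norm_act]; exact hx)) ht hd
  refine le_trans (le_of_eq ?_) h1
  rw [integral_add (integrable_const _) (hsub.const_mul _), integral_const_mul,
    integral_sub (orb_int hb hs hx 2) (integrable_const _), integral_const, integral_const,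
    ← BG_sq hb hs hx, ← hT, probReal_univ]
  simp only [smul_eq_mul]
  ring

end Pool.Agent.Q196.FI
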