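import Pool.Agent.Q196.FI.Crv

/-! # The volume inequality -/

set_option autoImplicit false

open Real Set MeasureTheory Metric Filter Topology
open scoped ENNReal

namespace Pool.Agent.Q196.FI

open Pool.Agent.Y499.HC Pool.Agent.Y499.HR Pool.Agent.Y502.HC Pool.Agent.Q196.FE
open Pool.Agent.Q196.FD Pool.Agent.Q196.FH

variable {d : ℕ} {G : Subgroup (O d)} [CompactSpace G] {R : ℝ} {b : ℝ → E d → ℝ} {m : Met d}
  {x : E d} {ι : Type} [Fintype ι] {w : ι → E d}

/-- the volume density of the slices of `m` -/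
noncomputable def P (m : Met d) (s : ℝ) (x : E d) : ℝ := √(detTan (m.g s x) x)

lemma P_act (hgood : Good R m) (hP : PosDef R m) (hI : GInv G R m) (hx : ‖x‖ = 1)
    (h : Frame R m x w) {γ : O d} (hγ : γ ∈ G) {s : ℝ} (hs : s ∈ Ico 0 R) :
    P m s (act γ x) = P m s x := by
  unfold P
  rw [h.sqrt_det hgood hP hx hs,
    (frame_act hI hx h hγ).sqrt_det hgood hP (by rw [norm_act]; exact hx) hs]
  refine Finset.prod_congr rfl fun i _ => ?_
  rw [hI γ hγ s hs x hx _ (h.perp i)]

lemma scale_sqrt (hgood : Good R m) (hP : PosDef R m) (hb : Factor R b) (hx : ‖x‖ = 1)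
    (h : Frame R m x w) {s : ℝ} (hs : s ∈ Ico 0 R) :
    √(detTan ((scale b m).g s x) x) = b s x ^ d * P m s x := by
  have h1 : detTan ((scale b m).g s x) x = ∏ i, quad ((scale b m).g s x) (w i) := by
    refine detTan_eq ?_ hx h.card h.perp h.orthn ?_
    · have := hgood.symm s hs x (mem_sphere_zero_iff_norm.2 hx)
      exact this.smul _
    · intro c
      show quad ((b s x ^ 2) • m.g s x) _ = ∑ i, c i ^ 2 * quad ((b s x ^ 2) • m.g s x) _
      simp only [quad_smul_mat]
      rw [h.diag s hs c, Finset.mul_sum]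
      refine Finset.sum_congr rfl fun i _ => ?_
      ring
  have h2 : ∀ i, quad ((scale b m).g s x) (w i) =
      (b s x * √(quad (m.g s x) (w i))) ^ 2 := fun i => by
    show quad ((b s x ^ 2) • m.g s x) _ = _
    rw [quad_smul_mat, mul_pow, Real.sq_sqrt (h.quad_pos hP hx hs i).le]
  have hb0 := hb.pos s hs x hx
  unfold P
  rw [h1, h.sqrt_det hgood hP hx hs]
  simp only [h2]
  rw [Finset.prod_pow, Real.sqrt_sq (Finset.prod_nonneg fun i _ =>
    mul_nonneg hb0.le (Real.sqrt_nonneg _)), Finset.prod_mul_distrib, Finset.prod_const,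
    Finset.card_univ, h.card]

lemma P_cont (hgood : Good R m) {s : ℝ} (hs : s ∈ Ico 0 R) :
    Continuous fun y : Sph d => P m s (y : E d) := by
  have h1 : Continuous fun y : Sph d => m.g s (y : E d) :=
    hgood.cont_g.comp_continuous (f := fun y : Sph d => (s, (y : E d))) (by fun_prop)
      fun y => ⟨hs, y.2⟩
  have h2 : Continuous fun y : Sph d => (m.g s (y : E d), (y : E d)) :=
    h1.prodMk continuous_subtype_val
  exact (detTan_continuous.comp h2).sqrt

lemma P_contOn (hgood : Good R m) :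
    ContinuousOn (fun p : ℝ × Sph d => P m p.1 (p.2 : E d)) (Ico 0 R ×ˢ univ) := by
  have h1 : ContinuousOn (fun p : ℝ × Sph d => m.g p.1 (p.2 : E d)) (Ico 0 R ×ˢ univ) := by
    refine hgood.cont_g.comp (f := fun p : ℝ × Sph d => (p.1, (p.2 : E d))) ?_ ?_
    · exact (continuous_fst.prodMk (continuous_subtype_val.comp continuous_snd)).continuousOn
    · rintro ⟨s, x⟩ ⟨hs, _⟩
      exact ⟨hs, x.2⟩
  have h2 : ContinuousOn (fun p : ℝ × Sph d => (m.g p.1 (p.2 : E d), (p.2 : E d)))
      (Ico 0 R ×ˢ univ) :=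
    h1.prodMk (continuous_subtype_val.comp continuous_snd).continuousOn
  exact (detTan_continuous.comp_continuousOn h2).sqrt

/-- the functions of the one-dimensional problem -/
lemma dirs_pt (hgood : Good R m) (hP : PosDef R m) (hI : GInv G R m)
    (hb : Factor R b) (hNS : NonShort R (scale b m)) (hx : ‖x‖ = 1) (h : Frame R m x w)
    (hal : ∀ i, Along G R b x (w i)) :
    Dirs d R fun (i : ι) s => BG G b s x * √(quad (m.g s x) (w i)) where
  card := h.card
  curve := fun i => curve_avg hb hNS hI (h.circ i) (hal i) hx (h.orthn.norm_eq_one i) (h.perp i)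
    (quad_cont hgood hx (w i)) fun s hs => h.quad_pos hP hx hs i
  cont := fun i => (BG_cont_s hb hx).mul (quad_cont hgood hx (w i)).sqrt
  pos := fun i s hs => mul_pos (BG_pos hb hs hx) (Real.sqrt_pos.2 (h.quad_pos hP hx hs i))

lemma prod_pt (hgood : Good R m) (hP : PosDef R m) (hx : ‖x‖ = 1)
    (h : Frame R m x w) {s : ℝ} (hs : s ∈ Ico 0 R) :
    ∏ i, (BG G b s x * √(quad (m.g s x) (w i))) = P m s x * BG G b s x ^ d := by
  unfold P
  rw [h.sqrt_det hgood hP hx hs, Finset.prod_mul_distrib, Finset.prod_const, Finset.card_univ,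
    h.card, mul_comm]

lemma cont_mean (G : Subgroup (O d)) [CompactSpace G] {F : Sph d → ℝ} (hF : Continuous F) :
    Continuous fun y : Sph d => ∫ γ : G, F (actS (γ : O d) y) ∂(hm G) := by
  have h0 : Continuous fun p : Sph d × G => ((p.2 : O d), p.1) :=
    (continuous_subtype_val.comp continuous_snd).prodMk continuous_fst
  have h0' := continuous_actS.comp h0
  have h1 : Continuous (Function.uncurry fun (y : Sph d) (γ : G) => F (actS (γ : O d) y)) :=
    hF.comp h0'
  have h2 := continuous_parametric_integral_of_continuous (μ := hm G) h1 isCompact_univ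
  simp only [Measure.restrict_univ] at h2
  exact h2

lemma slice_int (hgood : Good R m) (hP : PosDef R m) (hI : GInv G R m) (hb : Factor R b)
    (hd : 2 ≤ d) (hfr : ∀ x : E d, ‖x‖ = 1 → ∃ w : Fin d → E d, Frame R m x w) {s : ℝ}
    (hs : s ∈ Ico 0 R) :
    ∫ y : Sph d, P m s y * BG G b s y ^ d ∂(σ d) ≤ ∫ y : Sph d, b s y ^ d * P m s y ∂(σ d) := by
  have hFc : Continuous fun y : Sph d => b s (y : E d) ^ d * P m s (y : E d) :=
    ((hb.cont1 hs).pow d).mul (P_cont hgood hs)
  rw [← swap_orb G (hm G) hFc]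
  have h2 := cont_mean G hFc
  have h3 : Continuous fun y : Sph d => P m s (y : E d) * BG G b s (y : E d) ^ d :=
    (P_cont hgood hs).mul ((BG_cont_x hb hs).pow d)
  refine integral_mono (h3.integrable_of_hasCompactSupport (HasCompactSupport.of_compactSpace _))
    (h2.integrable_of_hasCompactSupport (HasCompactSupport.of_compactSpace _)) fun y => ?_
  have hy : ‖(y : E d)‖ = 1 := mem_sphere_zero_iff_norm.1 y.2
  obtain ⟨w, hw⟩ := hfr y hy
  have h4 : ∀ γ : G, b s (actS (γ : O d) y : E d) ^ d * P m s (actS (γ : O d) y : E d) =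
      P m s y * b s (act (γ : O d) (y : E d)) ^ d := fun γ => by
    have := P_act hgood hP hI hy hw γ.2 hs
    show b s (act (γ : O d) (y : E d)) ^ d * P m s (act (γ : O d) (y : E d)) = _
    rw [this, mul_comm]
  simp only [h4]
  rw [integral_const_mul]
  exact mul_le_mul_of_nonneg_left (BG_pow hb hd hs hy) (Real.sqrt_nonneg _)

lemma slice_lint (hgood : Good R m) (hP : PosDef R m) (hI : GInv G R m) (hb : Factor R b)
    (hd : 2 ≤ d) (hfr : ∀ x : E d, ‖x‖ = 1 → ∃ w : Fin d → E d, Frame R m x w) {s : ℝ}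
    (hs : s ∈ Ico 0 R) :
    ∫⁻ y : Sph d, ENNReal.ofReal (P m s y * BG G b s y ^ d) ∂(σ d) ≤
      ∫⁻ y : Sph d, ENNReal.ofReal (√(detTan ((scale b m).g s y) y)) ∂(σ d) := by
  have h0 : ∀ y : Sph d, √(detTan ((scale b m).g s y) y) = b s y ^ d * P m s y := fun y => by
    have hy : ‖(y : E d)‖ = 1 := mem_sphere_zero_iff_norm.1 y.2
    obtain ⟨w, hw⟩ := hfr y hy
    exact scale_sqrt hgood hP hb hy hw hs
  simp only [h0]
  have hFc : Continuous fun y : Sph d => b s (y : E d) ^ d * P m s (y : E d) :=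
    ((hb.cont1 hs).pow d).mul (P_cont hgood hs)
  have h3 : Continuous fun y : Sph d => P m s (y : E d) * BG G b s (y : E d) ^ d :=
    (P_cont hgood hs).mul ((BG_cont_x hb hs).pow d)
  rw [← ofReal_integral_eq_lintegral_ofReal
    (h3.integrable_of_hasCompactSupport (HasCompactSupport.of_compactSpace _))
    (Eventually.of_forall fun y => mul_nonneg (Real.sqrt_nonneg _)
      (pow_nonneg (Real.sqrt_nonneg _) _)),
    ← ofReal_integral_eq_lintegral_ofReal
    (hFc.integrable_of_hasCompactSupport (HasCompactSupport.of_compactSpace _))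
    (Eventually.of_forall fun y => mul_nonneg
      (pow_pos (hb.pos s hs y (mem_sphere_zero_iff_norm.1 y.2)) d).le (Real.sqrt_nonneg _))]
  exact ENNReal.ofReal_le_ofReal (slice_int hgood hP hI hb hd hfr hs)

lemma dens_meas' (hgood : Good R m) (hb : Factor R b) : AEMeasurable (fun p : ℝ × Sph d =>
    ENNReal.ofReal (P m p.1 p.2 * BG G b p.1 p.2 ^ d))
    ((volume.restrict (Ioo 0 R)).prod (σ d)) := by
  have h1 : (volume.restrict (Ioo 0 R)).prod (σ d) =
      ((volume : Measure ℝ).prod (σ d)).restrict (Ioo 0 R ×ˢ univ) := by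
    rw [← Measure.prod_restrict, Measure.restrict_univ]
  rw [h1]
  have h2 : ContinuousOn (fun p : ℝ × Sph d =>
      ENNReal.ofReal (P m p.1 p.2 * BG G b p.1 p.2 ^ d)) (Ico 0 R ×ˢ univ) := by
    have h3 : ContinuousOn (fun p : ℝ × Sph d => P m p.1 (p.2 : E d) *
        BG G b p.1 (p.2 : E d) ^ d) (Ico 0 R ×ˢ univ) :=
      (P_contOn hgood).mul ((BG_contOn hb).pow d)
    exact ENNReal.continuous_ofReal.comp_continuousOn h3
  exact (h2.mono (prod_mono Ioo_subset_Ico_self le_rfl)).aemeasurable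
    (measurableSet_Ioo.prod MeasurableSet.univ)

lemma vol_ge (hgood : Good R m) (hP : PosDef R m) (hI : GInv G R m) (hb : Factor R b)
    (hd : 2 ≤ d) (hfr : ∀ x : E d, ‖x‖ = 1 → ∃ w : Fin d → E d, Frame R m x w) :
    ∫⁻ y : Sph d, ∫⁻ s in Ioo 0 R, ENNReal.ofReal (P m s y * BG G b s y ^ d) ∂volume ∂(σ d) ≤
      vol R (scale b m) := by
  rw [← lintegral_lintegral_swap (f := fun s (y : Sph d) =>
    ENNReal.ofReal (P m s y * BG G b s y ^ d)) (dens_meas' hgood hb)]
  unfold vol
  exact setLIntegral_mono' measurableSet_Ioo fun s hs =>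
    slice_lint hgood hP hI hb hd hfr ⟨hs.1.le, hs.2⟩

/-- the inequality at a point -/
lemma point_ge (hR0 : 0 < R) (hR : R ≤ π / 2) (hgood : Good R m) (hP : PosDef R m)
    (hI : GInv G R m) (hb : Factor R b) (hNS : NonShort R (scale b m)) (hx : ‖x‖ = 1)
    (h : Frame R m x w) (hal : ∀ i, Along G R b x (w i)) :
    ENNReal.ofReal (∫ θ in (0 : ℝ)..R, Real.cos θ ^ d) ≤
      ∫⁻ s in Ioo 0 R, ENNReal.ofReal (P m s x * BG G b s x ^ d) := by
  have h1 := one_dim hR0 hR (dirs_pt hgood hP hI hb hNS hx h hal)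
  refine h1.trans (le_of_eq ?_)
  refine setLIntegral_congr_fun measurableSet_Ioo fun s hs => ?_
  rw [prod_pt hgood hP hx h ⟨hs.1.le, hs.2⟩]

theorem volume_ge (hR0 : 0 < R) (hR : R ≤ π / 2) (hgood : Good R m) (hP : PosDef R m)
    (hI : GInv G R m) (hb : Factor R b) (hNS : NonShort R (scale b m)) (hd : 2 ≤ d)
    (hfr : ∀ x : E d, ‖x‖ = 1 → ∃ w : Fin d → E d, Frame R m x w ∧
      ∀ i, Along G R b x (w i)) :
    hemiCollar d R ≤ vol R (scale b m) := by
  refine le_trans ?_ (vol_ge (G := G) hgood hP hI hb hd fun x hx => ?_)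
  · rw [hemi_eq]
    refine lintegral_mono fun x => ?_
    have hx : ‖(x : E d)‖ = 1 := mem_sphere_zero_iff_norm.1 x.2
    obtain ⟨w, hw, hal⟩ := hfr x hx
    exact point_ge hR0 hR hgood hP hI hb hNS hx hw hal
  · obtain ⟨w, hw, -⟩ := hfr x hx
    exact ⟨w, hw⟩

end Pool.Agent.Q196.FI
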